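import Mathlib
import Pool.Agent.H.MP_be768e_al.D

set_option autoImplicit false

namespace Pool.Agent.Results.MP_be768e_al.NotFP

/-- The largest length of a weakly increasing scattered subsequence of `w` all of whose letters
lie in `[p, q]`. -/
noncomputable def phi {n : ℕ} (w : FreeMonoid (Fin n)) (p q : Fin n) : ℕ :=
  sSup {k | ∃ s : List (Fin n), s.Sublist w.toList ∧ s.Pairwise (· ≤ ·) ∧
    (∀ x ∈ s, p ≤ x ∧ x ≤ q) ∧ s.length = k}

/-- The grammic congruence on words over an ordered alphabet with `n` letters. -/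
def Gram {n : ℕ} (u v : FreeMonoid (Fin n)) : Prop :=
  ∀ p q : Fin n, p ≤ q → phi u p q = phi v p q

open Pool.Agent.H.MP_be768e_al in
theorem result (n : ℕ) (hn : 5 ≤ n) :
    ∃ c : Con (FreeMonoid (Fin n)), (∀ u v, c u v ↔ Gram u v) ∧
      (∀ R : FreeMonoid (Fin n) → FreeMonoid (Fin n) → Prop,
        {p : FreeMonoid (Fin n) × FreeMonoid (Fin n) | R p.1 p.2}.Finite → conGen R ≠ c) ∧
      ∀ (A : Type) [Finite A] (R : FreeMonoid A → FreeMonoid A → Prop),
        {p : FreeMonoid A × FreeMonoid A | R p.1 p.2}.Finite →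
          IsEmpty (PresentedMonoid R ≃* c.Quotient) := by
  have nf := not_fg (Fin.val : Fin n → ℕ) fun i hi => ⟨⟨i, by omega⟩, rfl⟩
  refine ⟨gcon Fin.val, fun u v => ?_, nf, fun A _ R hR => ⟨fun e => ?_⟩⟩
  · change Le _ _ ∧ Le _ _ ↔ _
    rw [Le_map, Le_map]
    constructor
    · rintro ⟨h, g⟩ p q hpq
      exact congrArg sSup (Set.ext fun k => ⟨h p q hpq k, g p q hpq k⟩)
    · intro h
      refine ⟨fun p q hpq k => ?_, fun p q hpq k => ?_⟩ <;> rw [Inc_iff, Inc_iff]
      · exact fun g => g.trans (h p q hpq).le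
      · exact fun g => g.trans (h p q hpq).ge
  · obtain ⟨S, h1, h2⟩ := fg_of_fp _ R hR e
    exact nf S h1 h2

end Pool.Agent.Results.MP_be768e_al.NotFP
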